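import Pool.Agent.H72.CH.Targets3
import Pool.Agent.H36.CH.FBD

/-!
# Structures with relative local completions are finitely bounded
-/

set_option autoImplicit false
set_option linter.unusedVariables false

namespace Pool.Agent.H70.CH3

open Pool.Agent.H68.BP Pool.Agent.H58.SF Pool.Agent.H53.NR
open Pool.Agent.H57.LCI (Pre Realizes)
open Pool.Agent.H57.AR (tp ty Ty)
open Pool.Agent.H57.LH (Hmg tp_iff)
open Pool.Agent.H72.CH
open Pool.Agent.H36.CH (EmbOn bounded_of_small embOn_mono exists_embOn tp_embOn)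
open Function

/-- **Structures with relative local completions are finitely bounded.** -/
theorem pf_FB0 : T_FB0 := by
  classical
  intro V ρ 𝔹 m lv hne hlev hinv hrlc
  obtain ⟨M, hM⟩ := hrlc (max 2 ρ.width)
  refine bounded_of_small ⟨max M 3, fun n 𝕏 hs => ?_⟩
  have hF := fun T : Finset (Fin n) => fun hT : T.card ≤ max M 3 => exists_embOn hs T hT
  have h2 : ∀ x y : Fin n, ({x, y} : Finset (Fin n)).card ≤ max M 3 := fun x y =>
    le_trans Finset.card_le_two (le_trans (by norm_num) (le_max_right M 3))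
  have h3 : ∀ x y z : Fin n, ({x, y, z} : Finset (Fin n)).card ≤ max M 3 := fun x y z =>
    le_trans Finset.card_le_three (le_max_right M 3)
  choose E hE using fun x y : Fin n => hF {x, y} (h2 x y)
  let lam : Fin n → Fin n → ℕ := fun x y => lv (E x y x) (E x y y)
  have key : ∀ (T : Finset (Fin n)) (f : Fin n → V), EmbOn 𝔹 𝕏 T f → ∀ x ∈ T, ∀ y ∈ T,
      lv (f x) (f y) = lam x y := by
    intro T f hf x hx y hy
    have hT : ({x, y} : Finset (Fin n)) ⊆ T := by
      intro a ha
      rcases Finset.mem_insert.1 ha with h | h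
      · rw [h]
        exact hx
      · rw [Finset.mem_singleton.1 h]
        exact hy
    have h4 := tp_embOn (embOn_mono hf hT) (hE x y) (![x, y] : Fin 2 → Fin n) (by
      intro j
      fin_cases j
      · exact Finset.mem_insert_self x {y}
      · exact Finset.mem_insert_of_mem (Finset.mem_singleton_self y))
    exact hinv _ _ h4
  have hpl : PLev m lam := by
    refine ⟨fun x y => hlev.pl.le _ _, fun x => hlev.pl.self _, fun x y => ?_,
      fun x y z => ?_⟩
    · have h4 := key {x, y} (E x y) (hE x y) y (Finset.mem_insert_of_mem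
        (Finset.mem_singleton_self y)) x (Finset.mem_insert_self x {y})
      rw [← h4]
      exact hlev.pl.sym _ _
    · obtain ⟨f, hf⟩ := hF {x, y, z} (h3 x y z)
      have hx : x ∈ ({x, y, z} : Finset (Fin n)) := Finset.mem_insert_self _ _
      have hy : y ∈ ({x, y, z} : Finset (Fin n)) :=
        Finset.mem_insert_of_mem (Finset.mem_insert_self _ _)
      have hz : z ∈ ({x, y, z} : Finset (Fin n)) :=
        Finset.mem_insert_of_mem (Finset.mem_insert_of_mem (Finset.mem_singleton_self _))
      rw [← key _ f hf x hx y hy, ← key _ f hf y hy z hz, ← key _ f hf x hx z hz]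
      exact hlev.pl.ult _ _ _
  have heq : ∀ x y, lam x y = m → x = y := fun x y h =>
    (hE x y).1 x (Finset.mem_insert_self x {y}) y
      (Finset.mem_insert_of_mem (Finset.mem_singleton_self y)) (hlev.eq _ _ h)
  obtain ⟨f, hf1, hf2⟩ := hM n lam
    {p | p.1 ≤ max 2 ρ.width ∧ Injective p.2.1 ∧ p.2.2 = pull 𝕏 p.2.1} hpl
    (fun p hp => hp.1) (by
      intro U hU
      obtain ⟨f, hf⟩ := hF U (le_trans hU (le_max_left M 3))
      refine ⟨f, fun x hx y hy => (key U f hf x hx y hy).ge, ?_⟩
      rintro ⟨j, t, 𝕋⟩ ⟨hp1, hp2, hp3⟩ hpU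
      have hp3' : 𝕋 = pull 𝕏 t := hp3
      subst hp3'
      refine ⟨⟨fun a b hab => ?_, fun l z => ?_⟩, fun a b => ?_⟩
      · exact hp2 (hf.1 _ (hpU a) _ (hpU b) hab)
      · exact hf.2 l (fun i => t (z i)) fun i => hpU _
      · exact key U f hf _ (hpU a) _ (hpU b))
  refine ⟨f, fun x y hxy => heq x y ?_, fun l z => ?_⟩
  · rw [← hf1, hxy]
    exact hlev.pl.self _
  · let T : Finset (Fin n) := Finset.univ.image z
    have hzT : ∀ i, z i ∈ T := fun i => Finset.mem_image_of_mem z (Finset.mem_univ i)
    have hc : T.card ≤ ρ.ar l := by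
      have h5 : T.card ≤ (Finset.univ : Finset (Fin (ρ.ar l))).card := Finset.card_image_le
      rw [Finset.card_univ, Fintype.card_fin] at h5
      exact h5
    have hw : ρ.ar l ≤ ρ.width := Finset.le_sup (f := ρ.ar) (Finset.mem_univ l)
    have h6 := hf2 ⟨T.card, fun i => (T.equivFin.symm i : Fin n),
        pull 𝕏 fun i => (T.equivFin.symm i : Fin n)⟩
      ⟨le_trans hc (le_trans hw (le_max_right _ _)),
        Subtype.val_injective.comp T.equivFin.symm.injective, rfl⟩
    have h7 := h6.2 l (fun i => T.equivFin ⟨z i, hzT i⟩)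
    have h8 : (fun i => (T.equivFin.symm (T.equivFin ⟨z i, hzT i⟩) : Fin n)) = z := by
      funext i
      rw [Equiv.symm_apply_apply]
    have h9 : 𝕏 l (fun i => (T.equivFin.symm (T.equivFin ⟨z i, hzT i⟩) : Fin n)) ↔
        𝔹 l (fun i => f (T.equivFin.symm (T.equivFin ⟨z i, hzT i⟩) : Fin n)) := h7
    have h10 : (fun i => f (T.equivFin.symm (T.equivFin ⟨z i, hzT i⟩) : Fin n)) =
        fun i => f (z i) := funext fun i => congrArg f (congrFun h8 i)
    rw [h8, h10] at h9
    exact h9

end Pool.Agent.H70.CH3
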